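import Mathlib

set_option autoImplicit false

namespace Pool.Agent.Results.MP_9e9a14_co.Triangles

open Classical in
/-- The vertex sum of an edge weighting: the sum of the weights of the edges containing `v`. -/
noncomputable def vertexSum {V : Type} [Fintype V] (G : SimpleGraph V) (w : G.edgeSet → ℝ) (v : V) : ℝ :=
  ∑ e ∈ Finset.univ.filter (fun e : G.edgeSet => v ∈ (e : Sym2 V)), w e

/-- `w` is an edge `S`-weighting that properly colours the vertices by sums. -/
def ProperWeighting {V : Type} [Fintype V] (G : SimpleGraph V) (S : Set ℝ) (w : G.edgeSet → ℝ) : Prop :=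
  (∀ e, w e ∈ S) ∧ ∀ u v, G.Adj u v → vertexSum G w u ≠ vertexSum G w v

/-- Two edge weightings are isomorphic if an automorphism of the graph carries one to the other. -/
def IsoWeighting {V : Type} (G : SimpleGraph V) (w w' : G.edgeSet → ℝ) : Prop :=
  ∃ φ : G ≃g G, ∀ e : G.edgeSet, w' (φ.mapEdgeSet e) = w e

/-- `G` is uniquely `S`-weight colourable. -/
def UniquelyWeightColourable {V : Type} [Fintype V] (G : SimpleGraph V) (S : Set ℝ) : Prop :=
  (∃ w, ProperWeighting G S w) ∧
    ∀ w w', ProperWeighting G S w → ProperWeighting G S w' → IsoWeighting G w w'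

/-- The disjoint union of `m` triangles. -/
def triangles (m : ℕ) : SimpleGraph (Fin m × Fin 3) where
  Adj p q := p.1 = q.1 ∧ p.2 ≠ q.2
  symm := ⟨fun _ _ h => ⟨h.1.symm, h.2.symm⟩⟩
  loopless := ⟨fun _ h => h.2 rfl⟩

variable {m : ℕ}

theorem adj_iff (p q : Fin m × Fin 3) : (triangles m).Adj p q ↔ p.1 = q.1 ∧ p.2 ≠ q.2 := Iff.rfl

/-- The edge of component `i` opposite to the vertex `a`. -/
def opp (p : Fin m × Fin 3) : (triangles m).edgeSet :=
  ⟨s((p.1, p.2 + 1), (p.1, p.2 + 2)), by
    rw [SimpleGraph.mem_edgeSet, adj_iff]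
    refine ⟨rfl, ?_⟩
    show p.2 + 1 ≠ p.2 + 2
    generalize p.2 = a
    revert a
    decide⟩

theorem mem_opp (p q : Fin m × Fin 3) :
    q ∈ ((opp p : (triangles m).edgeSet) : Sym2 (Fin m × Fin 3)) ↔ q.1 = p.1 ∧ q.2 ≠ p.2 := by
  obtain ⟨i, a⟩ := p
  obtain ⟨j, b⟩ := q
  unfold opp
  simp only [Sym2.mem_iff, Prod.mk.injEq]
  have h : ∀ a b : Fin 3, (b = a + 1 ∨ b = a + 2) ↔ b ≠ a := by decide
  rw [← h a b]
  tauto

theorem add_one_ne (a : Fin 3) : a + 1 ≠ a := by
  revert a
  decide

theorem opp_injective : Function.Injective (opp (m := m)) := by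
  rintro ⟨i, a⟩ ⟨j, b⟩ h
  have key : ∀ q, q ∈ ((opp (i, a) : (triangles m).edgeSet) : Sym2 (Fin m × Fin 3)) ↔
      q ∈ ((opp (j, b) : (triangles m).edgeSet) : Sym2 (Fin m × Fin 3)) := by
    intro q
    rw [h]
  have h1 := (key (i, a + 1)).mp ((mem_opp _ _).mpr ⟨rfl, add_one_ne a⟩)
  rw [mem_opp] at h1
  have hij : i = j := h1.1
  subst hij
  by_contra hne
  have hab : a ≠ b := by
    rintro rfl
    exact hne rfl
  have h2 := (key (i, b)).mp ((mem_opp _ _).mpr ⟨rfl, hab.symm⟩)
  rw [mem_opp] at h2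
  exact h2.2 rfl

theorem opp_surjective : Function.Surjective (opp (m := m)) := by
  rintro ⟨e, he⟩
  induction e with
  | h p q =>
    rw [SimpleGraph.mem_edgeSet, adj_iff] at he
    obtain ⟨i, a⟩ := p
    obtain ⟨j, b⟩ := q
    obtain ⟨h1, h2⟩ := he
    simp only at h1 h2
    subst h1
    have h : ∀ a b : Fin 3, a ≠ b → ∃ c : Fin 3, (c + 1 = a ∧ c + 2 = b) ∨ (c + 1 = b ∧ c + 2 = a) := by
      decide
    obtain ⟨c, hc⟩ := h a b h2
    refine ⟨(i, c), ?_⟩
    apply Subtype.ext
    show s((i, c + 1), (i, c + 2)) = s((i, a), (i, b))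
    rcases hc with ⟨rfl, rfl⟩ | ⟨rfl, rfl⟩
    · rfl
    · exact Sym2.eq_swap

/-- Vertices correspond to opposite edges. -/
noncomputable def oppEquiv : Fin m × Fin 3 ≃ (triangles m).edgeSet :=
  Equiv.ofBijective opp ⟨opp_injective, opp_surjective⟩

theorem oppEquiv_apply (p : Fin m × Fin 3) : oppEquiv p = opp p := rfl

theorem vertexSum_eq (w : (triangles m).edgeSet → ℝ) (i : Fin m) (a : Fin 3) :
    vertexSum (triangles m) w (i, a) = (∑ b : Fin 3, w (opp (i, b))) - w (opp (i, a)) := by
  classical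
  unfold vertexSum
  rw [Finset.sum_filter]
  rw [← Equiv.sum_comp (oppEquiv (m := m))]
  rw [Fintype.sum_prod_type]
  have h1 : ∀ j : Fin m, (∑ b : Fin 3, if (i, a) ∈ ((oppEquiv (j, b) : (triangles m).edgeSet) :
      Sym2 (Fin m × Fin 3)) then w (oppEquiv (j, b)) else 0)
      = if i = j then (∑ b : Fin 3, w (opp (i, b))) - w (opp (i, a)) else 0 := by
    intro j
    split_ifs with hij
    · subst hij
      rw [← Finset.sum_erase_eq_sub (Finset.mem_univ a)]
      rw [← Finset.sum_filter]
      apply Finset.sum_congr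
      · ext b
        rw [Finset.mem_filter, Finset.mem_erase, oppEquiv_apply, mem_opp]
        simp [eq_comm]
      · intro b _
        rfl
    · apply Finset.sum_eq_zero
      intro b _
      rw [if_neg]
      rw [oppEquiv_apply, mem_opp]
      exact fun h => hij h.1
  trans ∑ j : Fin m, if i = j then (∑ b : Fin 3, w (opp (i, b))) - w (opp (i, a)) else 0
  · apply Finset.sum_congr rfl
    intro j _
    rw [← h1 j]
    apply Finset.sum_congr rfl
    intro b _
    by_cases hc : (i, a) ∈ ((oppEquiv (j, b) : (triangles m).edgeSet) : Sym2 (Fin m × Fin 3))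
    · rw [if_pos hc, if_pos hc]
    · rw [if_neg hc, if_neg hc]
  · simp

/-- A weighting of the disjoint union of triangles is proper iff on each triangle the weights
are pairwise different. -/
theorem proper_iff (S : Set ℝ) (w : (triangles m).edgeSet → ℝ) :
    ProperWeighting (triangles m) S w ↔
      (∀ p, w (opp p) ∈ S) ∧ ∀ i, Function.Injective (fun a : Fin 3 => w (opp (i, a))) := by
  constructor
  · rintro ⟨h1, h2⟩
    refine ⟨fun p => h1 _, fun i a b hab => ?_⟩
    by_contra hne
    have := h2 (i, a) (i, b) ⟨rfl, hne⟩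
    rw [vertexSum_eq, vertexSum_eq] at this
    apply this
    simp only at hab
    rw [hab]
  · rintro ⟨h1, h2⟩
    refine ⟨fun e => ?_, ?_⟩
    · obtain ⟨p, rfl⟩ := opp_surjective e
      exact h1 p
    · rintro ⟨i, a⟩ ⟨j, b⟩ ⟨hij, hab⟩
      simp only at hij hab
      subst hij
      rw [vertexSum_eq, vertexSum_eq]
      intro hh
      apply hab
      apply h2 i
      simp only
      linarith

/-- A family of permutations of the three vertices, one for each triangle, is an automorphism. -/
def permIso (π : Fin m → Equiv.Perm (Fin 3)) : triangles m ≃g triangles m where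
  toFun p := (p.1, π p.1 p.2)
  invFun p := (p.1, (π p.1).symm p.2)
  left_inv p := by simp
  right_inv p := by simp
  map_rel_iff' := by
    rintro ⟨i, a⟩ ⟨j, b⟩
    simp only [Equiv.coe_fn_mk, adj_iff]
    constructor
    · rintro ⟨h1, h2⟩
      subst h1
      exact ⟨rfl, fun h => h2 (by rw [h])⟩
    · rintro ⟨h1, h2⟩
      subst h1
      exact ⟨rfl, fun h => h2 ((π i).injective h)⟩

theorem permIso_opp (π : Fin m → Equiv.Perm (Fin 3)) (i : Fin m) (a : Fin 3) :
    (permIso π).mapEdgeSet (opp (i, a)) = opp (i, π i a) := by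
  obtain ⟨⟨j, c⟩, hc⟩ := opp_surjective ((permIso π).mapEdgeSet (opp (i, a)))
  rw [← hc]
  -- compare membership
  have key : ∀ q, q ∈ ((opp (j, c) : (triangles m).edgeSet) : Sym2 (Fin m × Fin 3)) ↔
      q.1 = i ∧ q.2 ≠ π i a := by
    intro q
    rw [hc]
    show q ∈ Sym2.map (permIso π) ((opp (i, a) : (triangles m).edgeSet) : Sym2 (Fin m × Fin 3)) ↔ _
    rw [Sym2.mem_map]
    constructor
    · rintro ⟨r, hr, rfl⟩
      rw [mem_opp] at hr
      obtain ⟨hr1, hr2⟩ := hr
      simp only at hr1 hr2
      refine ⟨hr1, ?_⟩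
      show π r.1 r.2 ≠ π i a
      rw [hr1]
      exact fun h => hr2 ((π i).injective h)
    · rintro ⟨h1, h2⟩
      refine ⟨(i, (π i).symm q.2), ?_, ?_⟩
      · rw [mem_opp]
        refine ⟨rfl, ?_⟩
        intro h
        apply h2
        simp only at h
        rw [← h]
        simp
      · show (i, π i ((π i).symm q.2)) = q
        rw [Equiv.apply_symm_apply, ← h1]
  have h1 : j = i := by
    have := (key (j, c + 1)).mp ((mem_opp _ _).mpr ⟨rfl, add_one_ne c⟩)
    exact this.1
  subst h1
  congr 2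
  by_contra hne
  have := (key (j, π j a)).mp ((mem_opp _ _).mpr ⟨rfl, fun h => hne h.symm⟩)
  exact this.2 rfl

/-- **Theorem.** For every set `S` of three reals (in particular `S = {1,2,3}`) and every `m`, the
disjoint union of `m` triangles is uniquely `S`-weight colourable. -/
theorem unique_triangles (S : Set ℝ) (hS : S.ncard = 3) (m : ℕ) :
    UniquelyWeightColourable (triangles m) S := by
  have hfin : S.Finite := Set.finite_of_ncard_ne_zero (by rw [hS]; decide)
  have : Fintype S := hfin.fintype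
  have hcard : Fintype.card S = 3 := by
    rw [← hS, Set.ncard_eq_toFinset_card', Set.toFinset_card]
  constructor
  · -- existence
    have e : Fin 3 ≃ S := (Fintype.equivFinOfCardEq hcard).symm
    refine ⟨fun x => (e (oppEquiv.symm x).2 : ℝ), ?_⟩
    rw [proper_iff]
    refine ⟨fun p => Subtype.coe_prop _, fun i a b hab => ?_⟩
    simp only [← oppEquiv_apply, Equiv.symm_apply_apply] at hab
    exact e.injective (Subtype.ext hab)
  · intro w w' hw hw'
    rw [proper_iff] at hw hw'
    -- on each triangle both weightings are bijections onto S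
    have hb : ∀ (u : (triangles m).edgeSet → ℝ) (hu : ∀ p, u (opp p) ∈ S)
        (hinj : ∀ i, Function.Injective (fun a : Fin 3 => u (opp (i, a)))) (i : Fin m),
        Function.Bijective (fun a : Fin 3 => (⟨u (opp (i, a)), hu _⟩ : S)) := by
      intro u hu hinj i
      rw [Fintype.bijective_iff_injective_and_card]
      refine ⟨fun a b hab => hinj i (congrArg Subtype.val hab), ?_⟩
      rw [hcard]
      rfl
    let E : Fin m → (Fin 3 ≃ S) := fun i => Equiv.ofBijective _ (hb w hw.1 hw.2 i)
    let E' : Fin m → (Fin 3 ≃ S) := fun i => Equiv.ofBijective _ (hb w' hw'.1 hw'.2 i)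
    have hE : ∀ i a, ((E i a : S) : ℝ) = w (opp (i, a)) := fun i a => rfl
    have hE' : ∀ i a, ((E' i a : S) : ℝ) = w' (opp (i, a)) := fun i a => rfl
    refine ⟨permIso (fun i => (E i).trans (E' i).symm), ?_⟩
    intro x
    obtain ⟨⟨i, a⟩, rfl⟩ := opp_surjective x
    rw [permIso_opp, ← hE', ← hE]
    simp

theorem triangles_adj (m : ℕ) (hm : 1 ≤ m) : ∃ u v, (triangles m).Adj u v :=
  ⟨(⟨0, hm⟩, 0), (⟨0, hm⟩, 1), rfl, by show (0 : Fin 3) ≠ 1; decide⟩

theorem triangles_one_connected : (triangles 1).Connected := by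
  have : Nonempty (Fin 1 × Fin 3) := ⟨(0, 0)⟩
  refine ⟨fun u v => ?_⟩
  by_cases h : u = v
  · subst h
    exact SimpleGraph.Reachable.refl _
  · apply SimpleGraph.Adj.reachable
    refine ⟨Subsingleton.elim _ _, fun h2 => h ?_⟩
    exact Prod.ext (Subsingleton.elim _ _) h2

/-- For every three-element set `S` of reals (in particular `S = {1,2,3}`) the triangle, a connected
graph with an edge, and every disjoint union of triangles are uniquely `S`-weight colourable. -/
theorem result (S : Set ℝ) (hS : S.ncard = 3) :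
    (triangles 1).Connected ∧
      ∀ m : ℕ, 1 ≤ m → (∃ u v, (triangles m).Adj u v) ∧ UniquelyWeightColourable (triangles m) S :=
  ⟨triangles_one_connected, fun m hm => ⟨triangles_adj m hm, unique_triangles S hS m⟩⟩

end Pool.Agent.Results.MP_9e9a14_co.Triangles
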